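import Pool.Agent.H55.BP.Targets

/-! # Module CTR: contraction in weak drawings -/

set_option autoImplicit false

open Finset

namespace Pool.Agent.H11.BPL

open Pool.Agent.H55.BP

theorem pf_CTR : T_CTR := by
  classical
  intro V _ E x y b hWD hxy _hbip hxb hyb
  obtain ⟨pt, S, hS, hd⟩ := hWD
  set A : Finset (V × V) := E.filter fun e => e.2 ≠ b ∧ e.1 ≠ y with hA
  set C : Finset (V × V) := E.filter fun e => e.1 = y ∧ e.2 ≠ b with hC
  set B : Finset (V × V) := C.image fun e => (x, e.2) with hB
  have hmem : ∀ e ∈ A ∪ B, (e ∈ E ∨ (e.1 = x ∧ (y, e.2) ∈ E)) ∧ e.1 ≠ y ∧ e.2 ≠ b := by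
    intro e he
    rw [Finset.mem_union] at he
    rcases he with he | he
    · rw [hA, Finset.mem_filter] at he
      exact ⟨Or.inl he.1, he.2.2, he.2.1⟩
    · rw [hB, Finset.mem_image] at he
      obtain ⟨f, hf, rfl⟩ := he
      rw [hC, Finset.mem_filter] at hf
      refine ⟨Or.inr ⟨rfl, ?_⟩, hxy, hf.2.2⟩
      have h1 : f = (y, f.2) := Prod.ext hf.2.1 rfl
      rw [← h1]
      exact hf.1
  refine ⟨A ∪ B, ⟨pt, fun u v => if (u, v) ∈ E then S u v else S x b ∪ S y b ∪ S y v, ?_, ?_⟩,
    hmem, ?_⟩
  · intro e he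
    obtain ⟨h1, h2, h3⟩ := hmem e he
    by_cases heE : (e.1, e.2) ∈ E
    · simp only [if_pos heE]
      exact hS _ heE
    · simp only [if_neg heE]
      rcases h1 with h1 | ⟨h1, h4⟩
      · exact absurd h1 heE
      · have j1 := hS _ hxb
        have j2 := hS _ hyb
        have j3 := hS _ h4
        rw [h1]
        exact (j1.mono (Set.subset_union_left.trans Set.subset_union_left)).trans
          ((j2.mono (Set.subset_union_right.trans Set.subset_union_left)).symm.trans
            (j3.mono Set.subset_union_right))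
  · have key : ∀ e ∈ A ∪ B, ∀ f ∈ A ∪ B, e.1 ≠ f.1 → e.2 ≠ f.2 → (e.1, e.2) ∈ E →
        (f.1, f.2) ∉ E → Disjoint (S e.1 e.2) (S x b ∪ S y b ∪ S y f.2) := by
      intro e he f hf h1 h2 heE hfE
      obtain ⟨_, e2, e3⟩ := hmem e he
      obtain ⟨f1, f2, f3⟩ := hmem f hf
      rcases f1 with f1 | ⟨f1, f4⟩
      · exact absurd f1 hfE
      · rw [f1] at h1
        rw [Set.disjoint_union_right, Set.disjoint_union_right]
        exact ⟨⟨hd _ heE _ hxb h1 e3, hd _ heE _ hyb e2 e3⟩, hd _ heE _ f4 e2 h2⟩
    intro e he f hf h1 h2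
    by_cases heE : (e.1, e.2) ∈ E
    · by_cases hfE : (f.1, f.2) ∈ E
      · simp only [if_pos heE, if_pos hfE]
        exact hd _ heE _ hfE h1 h2
      · simp only [if_pos heE, if_neg hfE]
        exact key e he f hf h1 h2 heE hfE
    · by_cases hfE : (f.1, f.2) ∈ E
      · simp only [if_neg heE, if_pos hfE]
        exact (key f hf e he h1.symm h2.symm hfE heE).symm
      · obtain ⟨e1, _, _⟩ := hmem e he
        obtain ⟨f1, _, _⟩ := hmem f hf
        rcases e1 with e1 | ⟨e1, _⟩
        · exact absurd e1 heE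
        · rcases f1 with f1 | ⟨f1, _⟩
          · exact absurd f1 hfE
          · exact absurd (e1.trans f1.symm) h1
  · have hBc : B.card = C.card := by
      rw [hB]
      refine Finset.card_image_of_injOn ?_
      intro e he f hf hef
      have he2 := (Finset.mem_filter.1 (Finset.mem_coe.1 he)).2.1
      have hf2 := (Finset.mem_filter.1 (Finset.mem_coe.1 hf)).2.1
      have hef2 : ((x, e.2) : V × V) = (x, f.2) := hef
      have h3 : e.2 = f.2 := (Prod.ext_iff.1 hef2).2
      exact Prod.ext (he2.trans hf2.symm) h3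
    have hAB : A ∩ B = E.filter fun e => e.1 = x ∧ e.2 ≠ b ∧ (y, e.2) ∈ E := by
      ext e
      rw [Finset.mem_inter, hA, hB, Finset.mem_filter, Finset.mem_filter, Finset.mem_image]
      constructor
      · rintro ⟨⟨h1, h2, h3⟩, f, hf, rfl⟩
        rw [hC, Finset.mem_filter] at hf
        have h4 : f = (y, f.2) := Prod.ext hf.2.1 rfl
        refine ⟨h1, rfl, h2, ?_⟩
        rw [← h4]
        exact hf.1
      · rintro ⟨h1, h2, h3, h4⟩
        refine ⟨⟨h1, h3, fun h => hxy (h2.symm.trans h)⟩, (y, e.2), ?_, ?_⟩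
        · rw [hC, Finset.mem_filter]
          exact ⟨h4, rfl, h3⟩
        · exact Prod.ext h2.symm rfl
    have h1 := Finset.card_union_add_card_inter A B
    have h2 : A.card + C.card + (E.filter fun e => e.2 = b).card = E.card := by
      have h3 := Finset.card_filter_add_card_filter_not (s := E) (fun e => e.2 = b)
      have h4 := Finset.card_filter_add_card_filter_not
        (s := E.filter fun e => ¬ e.2 = b) (fun e => e.1 = y)
      rw [Finset.filter_filter, Finset.filter_filter] at h4
      have h5 : A = E.filter fun e => ¬ e.2 = b ∧ ¬ e.1 = y := rfl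
      have h6 : C = E.filter fun e => ¬ e.2 = b ∧ e.1 = y := by
        rw [hC]
        exact Finset.filter_congr fun e _ => and_comm
      rw [h5, h6]
      omega
    rw [hAB] at h1
    omega

end Pool.Agent.H11.BPL
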